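import Mathlib
import Pool.Agent.K1H88.DP.Stm

/-! # Pieces `S_HALL` and `S_DUAL` -/

set_option autoImplicit false

namespace Pool.Agent.K1H1.DP

open Pool.Agent.K1H88.DP

theorem t_HALL : S_HALL := by
  intro I _ _ r hr hcard
  classical
  have hall : ∃ f : I → I, Function.Injective f ∧ ∀ x, f x ∈ Finset.univ.filter (fun j => ¬ r x j) := by
    rw [← Finset.all_card_le_biUnion_card_iff_exists_injective]
    intro A
    rcases A.eq_empty_or_nonempty with rfl | ⟨a, ha⟩
    · simp
    by_cases h : ∀ i ∈ A, r a i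
    · -- one class
      have h1 : Finset.univ.filter (fun j => ¬ r a j) ⊆
          A.biUnion (fun x => Finset.univ.filter (fun j => ¬ r x j)) :=
        Finset.subset_biUnion_of_mem (fun x => Finset.univ.filter (fun j => ¬ r x j)) ha
      have h2 : A ⊆ Finset.univ.filter (fun j => r a j) := by
        intro i hi
        rw [Finset.mem_filter]
        exact ⟨Finset.mem_univ _, h i hi⟩
      have h3 := Finset.card_le_card h1
      have h4 := Finset.card_le_card h2
      have h5 : (Finset.univ.filter (fun j => r a j)).card +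
          (Finset.univ.filter (fun j => ¬ r a j)).card = Fintype.card I := by
        rw [Finset.card_filter_add_card_filter_not, Finset.card_univ]
      have h6 := hcard a
      rw [Nat.card_eq_fintype_card, Fintype.card_subtype] at h6
      omega
    · push Not at h
      obtain ⟨c, hc, hac⟩ := h
      have h1 : A.biUnion (fun x => Finset.univ.filter (fun j => ¬ r x j)) = Finset.univ := by
        rw [Finset.eq_univ_iff_forall]
        intro j
        rw [Finset.mem_biUnion]
        by_cases hj : r a j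
        · refine ⟨c, hc, ?_⟩
          rw [Finset.mem_filter]
          refine ⟨Finset.mem_univ _, fun hcj => hac ?_⟩
          exact hr.trans hj (hr.symm hcj)
        · refine ⟨a, ha, ?_⟩
          rw [Finset.mem_filter]
          exact ⟨Finset.mem_univ _, hj⟩
      rw [h1]
      exact Finset.card_le_univ A
  obtain ⟨f, hf, hf'⟩ := hall
  refine ⟨Equiv.ofBijective f (Finite.injective_iff_bijective.1 hf), fun i hi => ?_⟩
  exact (Finset.mem_filter.1 (hf' i)).2 hi

/-- existence of a minimum -/
theorem exists_min {I : Type} [Fintype I] [DecidableEq I] (b : I → I → ℝ)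
    (h3 : 3 ≤ Fintype.card I) :
    ∃ γ : I → ℝ, (∀ i j, i ≠ j → b i j ≤ γ i + γ j) ∧
      ∀ γ' : I → ℝ, (∀ i j, i ≠ j → b i j ≤ γ' i + γ' j) → ∑ i, γ i ≤ ∑ i, γ' i := by
  classical
  obtain ⟨c, hc⟩ : ∃ c : ℝ, c = ∑ i, ∑ j, |b i j| := ⟨_, rfl⟩
  have hc1 : ∀ i j, |b i j| ≤ c := by
    intro i j
    rw [hc]
    refine (Finset.single_le_sum (f := fun j => |b i j|) (fun _ _ => abs_nonneg _)
      (Finset.mem_univ j)).trans ?_
    exact Finset.single_le_sum (f := fun i => ∑ j, |b i j|)
      (fun _ _ => Finset.sum_nonneg fun _ _ => abs_nonneg _) (Finset.mem_univ i)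
  have hc0 : 0 ≤ c := by
    rw [hc]
    exact Finset.sum_nonneg fun _ _ => Finset.sum_nonneg fun _ _ => abs_nonneg _
  obtain ⟨n, hn⟩ : ∃ n : ℝ, n = (Fintype.card I : ℝ) := ⟨_, rfl⟩
  have hn3 : 3 ≤ n := by rw [hn]; exact_mod_cast h3
  obtain ⟨R, hR⟩ : ∃ R : ℝ, R = n * c := ⟨_, rfl⟩
  have hR0 : 0 ≤ R := by rw [hR]; positivity
  -- the lower bound
  obtain ⟨lo, hlo⟩ : ∃ lo : ℝ, lo = -(R + n * c) := ⟨_, rfl⟩
  let S : Set (I → ℝ) := {γ | (∀ i j, i ≠ j → b i j ≤ γ i + γ j) ∧ ∑ i, γ i ≤ R}
  have hlow : ∀ γ ∈ S, ∀ i, lo ≤ γ i := by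
    rintro γ ⟨hγ, hγR⟩ i
    have h1 : ∑ j ∈ Finset.univ.erase i, (-c - γ i) ≤ ∑ j ∈ Finset.univ.erase i, γ j := by
      refine Finset.sum_le_sum fun j hj => ?_
      have h2 := hγ i j (Finset.ne_of_mem_erase hj).symm
      have h4 := abs_le.1 (hc1 i j)
      linarith
    rw [Finset.sum_const, Finset.card_erase_of_mem (Finset.mem_univ i), Finset.card_univ,
      nsmul_eq_mul, Nat.cast_sub (by omega), ← hn, Nat.cast_one] at h1
    have h5 := Finset.add_sum_erase Finset.univ γ (Finset.mem_univ i)
    by_contra hcon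
    push Not at hcon
    have h6 : lo ≤ 0 := by rw [hlo]; nlinarith
    have h7 : γ i < 0 := by linarith
    have h8 : (2 - n) * γ i - (n - 1) * c ≤ R := by nlinarith
    have h9 : -γ i ≤ (2 - n) * γ i := by nlinarith
    rw [hlo] at hcon
    nlinarith
  have hup : ∀ γ ∈ S, ∀ i, γ i ≤ R - n * lo := by
    intro γ hγ i
    have h0 := hlow γ hγ
    have h5 := Finset.add_sum_erase Finset.univ γ (Finset.mem_univ i)
    have h1 : ∑ j ∈ Finset.univ.erase i, lo ≤ ∑ j ∈ Finset.univ.erase i, γ j :=
      Finset.sum_le_sum fun j _ => h0 j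
    rw [Finset.sum_const, Finset.card_erase_of_mem (Finset.mem_univ i), Finset.card_univ,
      nsmul_eq_mul, Nat.cast_sub (by omega), ← hn, Nat.cast_one] at h1
    have h6 : lo ≤ 0 := by rw [hlo]; nlinarith
    have h7 := hγ.2
    nlinarith
  have hclosed : IsClosed S := by
    have h1 : S = (⋂ i, ⋂ j, ⋂ (_ : i ≠ j), {γ : I → ℝ | b i j ≤ γ i + γ j}) ∩
        {γ | ∑ i, γ i ≤ R} := by
      ext γ
      simp only [S, Set.mem_inter_iff, Set.mem_iInter, Set.mem_ofPred_eq]
    rw [h1]
    refine IsClosed.inter ?_ ?_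
    · refine isClosed_iInter fun i => isClosed_iInter fun j => isClosed_iInter fun _ => ?_
      exact isClosed_le continuous_const ((continuous_apply i).add (continuous_apply j))
    · exact isClosed_le (continuous_finsetSum _ fun i _ => continuous_apply i) continuous_const
  have hcomp : IsCompact S := by
    refine IsCompact.of_isClosed_subset (isCompact_Icc (a := fun _ : I => lo)
      (b := fun _ : I => R - n * lo)) hclosed ?_
    intro γ hγ
    exact ⟨fun i => hlow γ hγ i, fun i => hup γ hγ i⟩
  have hne : S.Nonempty := by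
    refine ⟨fun _ => c, fun i j _ => ?_, ?_⟩
    · have := (abs_le.1 (hc1 i j)).2
      linarith
    · rw [Finset.sum_const, Finset.card_univ, nsmul_eq_mul, ← hn, hR]
  obtain ⟨γ, hγ, hmin⟩ := hcomp.exists_isMinOn hne
    (f := fun γ : I → ℝ => ∑ i, γ i)
    (continuous_finsetSum _ fun i _ => continuous_apply i).continuousOn
  refine ⟨γ, hγ.1, fun γ' hγ' => ?_⟩
  by_cases h : ∑ i, γ' i ≤ R
  · exact hmin ⟨hγ', h⟩
  · exact hγ.2.trans (not_le.1 h).le

theorem t_DUAL : S_DUAL := by
  intro I _ _ b e M _ h3 hsym he hbe hM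
  classical
  obtain ⟨γ, hγ, hmin⟩ := exists_min b h3
  -- tight pairs
  let t : I → Finset I := fun i => Finset.univ.filter fun j => i ≠ j ∧ b i j = γ i + γ j
  have hall : ∃ f : I → I, Function.Injective f ∧ ∀ x, f x ∈ t x := by
    rw [← Finset.all_card_le_biUnion_card_iff_exists_injective]
    intro A
    by_contra hcon
    push Not at hcon
    obtain ⟨N, hN⟩ : ∃ N, N = A.biUnion t := ⟨_, rfl⟩
    rw [← hN] at hcon
    have hev : ∀ᶠ ε : ℝ in nhdsWithin 0 (Set.Ioi 0), ∀ i j, i ≠ j → b i j ≠ γ i + γ j →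
        2 * ε ≤ γ i + γ j - b i j := by
      rw [Filter.eventually_all]
      intro i
      rw [Filter.eventually_all]
      intro j
      by_cases hij : i ≠ j ∧ b i j ≠ γ i + γ j
      · have h1 : 0 < γ i + γ j - b i j := by
          have := lt_of_le_of_ne (hγ i j hij.1) hij.2
          linarith
        have h2 : Filter.Tendsto (fun ε : ℝ => 2 * ε) (nhdsWithin 0 (Set.Ioi 0)) (nhds 0) := by
          have : Filter.Tendsto (fun ε : ℝ => 2 * ε) (nhds 0) (nhds (2 * 0)) :=
            (continuous_const.mul continuous_id).tendsto 0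
          rw [mul_zero] at this
          exact this.mono_left nhdsWithin_le_nhds
        filter_upwards [h2.eventually_le_const h1] with ε hε _ _
        exact hε
      · refine Filter.Eventually.of_forall fun ε h1 h2 => absurd ⟨h1, h2⟩ hij
    obtain ⟨ε, hε, hε0⟩ := (hev.and self_mem_nhdsWithin).exists
    have h1 := hmin (fun i => γ i - (if i ∈ A then ε else 0) + (if i ∈ N then ε else 0)) (by
      intro i j hij
      by_cases ht : b i j = γ i + γ j
      · have h2 : i ∈ A → j ∈ N := by
          intro hi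
          rw [hN, Finset.mem_biUnion]
          exact ⟨i, hi, Finset.mem_filter.2 ⟨Finset.mem_univ _, hij, ht⟩⟩
        have h4 : j ∈ A → i ∈ N := by
          intro hj
          rw [hN, Finset.mem_biUnion]
          refine ⟨j, hj, Finset.mem_filter.2 ⟨Finset.mem_univ _, hij.symm, ?_⟩⟩
          rw [hsym, ht, add_comm]
        have h5 : (if i ∈ A then ε else 0) ≤ (if j ∈ N then ε else 0) := by
          by_cases hi : i ∈ A
          · rw [if_pos hi, if_pos (h2 hi)]
          · rw [if_neg hi]
            split_ifs <;> linarith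
        have h6 : (if j ∈ A then ε else 0) ≤ (if i ∈ N then ε else 0) := by
          by_cases hj : j ∈ A
          · rw [if_pos hj, if_pos (h4 hj)]
          · rw [if_neg hj]
            split_ifs <;> linarith
        rw [ht]
        linarith
      · have h2 := hε i j hij ht
        have h5 : (if i ∈ A then ε else 0) ≤ ε := by split_ifs <;> linarith
        have h6 : (if j ∈ A then ε else 0) ≤ ε := by split_ifs <;> linarith
        have h7 : 0 ≤ (if i ∈ N then ε else 0) := by split_ifs <;> linarith
        have h8 : 0 ≤ (if j ∈ N then ε else 0) := by split_ifs <;> linarith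
        linarith)
    rw [Finset.sum_add_distrib, Finset.sum_sub_distrib, Finset.sum_ite_mem, Finset.sum_ite_mem,
      Finset.univ_inter, Finset.univ_inter, Finset.sum_const, Finset.sum_const, nsmul_eq_mul,
      nsmul_eq_mul] at h1
    have h2 : (N.card : ℝ) < A.card := by exact_mod_cast hcon
    nlinarith
  obtain ⟨f, hf, hf'⟩ := hall
  let π : Equiv.Perm I := Equiv.ofBijective f (Finite.injective_iff_bijective.1 hf)
  have hπ : ∀ i, π i = f i := fun i => rfl
  have hsum : 2 * ∑ i, γ i ≤ M := by
    have h1 := hM π (fun i hi => (Finset.mem_filter.1 (hf' i)).2.1 (by rw [← hπ, hi]))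
    have h2 : ∑ i, b i (π i) = ∑ i, γ i + ∑ i, γ (π i) := by
      rw [← Finset.sum_add_distrib]
      exact Finset.sum_congr rfl fun i _ => (Finset.mem_filter.1 (hf' i)).2.2
    rw [Equiv.sum_comp π γ] at h2
    linarith
  let E : Equiv.Perm I := Function.Involutive.toPerm e he
  have hE : ∑ i, γ (e i) = ∑ i, γ i := Equiv.sum_comp E γ
  refine ⟨fun i => (γ i + γ (e i)) / 2, fun i j hij => ?_, ?_, fun i => ?_⟩
  · have h1 := hγ i j hij
    have h2 := hγ (e i) (e j) (fun h => hij (E.injective h))
    rw [hbe] at h2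
    linarith
  · rw [← Finset.sum_div, Finset.sum_add_distrib, hE]
    linarith
  · simp only [he]
    ring

end Pool.Agent.K1H1.DP
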