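import Pool.Agent.K1H88.DP.Stm
import Pool.Agent.K1H1.DP.HallDual

/-! Pieces INV, CINV, ZERO of project DP. -/

set_option autoImplicit false

namespace Pool.Agent.K1H1.DP.Inv

open Module NumberField Pool.Agent.K1H88.DP Function

/-- The norm of a rational number in `Kp p`. -/
theorem norm_ratCast (p : Nat.Primes) (q : ℚ) :
    ‖((q : ℚ) : Kp p)‖ = ((padicNorm (p : ℕ) q : ℚ) : ℝ) := by
  have h1 : ((q : ℚ) : Kp p) = algebraMap ℚ_[(p : ℕ)] (Kp p) (q : ℚ_[(p : ℕ)]) :=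
    (map_ratCast _ _).symm
  rw [h1]
  exact (PadicAlgCl.norm_extends (p := (p : ℕ)) (q : ℚ_[(p : ℕ)])).trans
    (Padic.eq_padicNorm q)

theorem prod_nat (n : ℕ) : n ≠ 0 →
    HasFiniteMulSupport (fun q : Nat.Primes => ((padicNorm (q : ℕ) (n : ℚ) : ℚ) : ℝ)) ∧
    (∏ᶠ q : Nat.Primes, ((padicNorm (q : ℕ) (n : ℚ) : ℚ) : ℝ)) * (n : ℝ) = 1 := by
  induction n using induction_on_primes with
  | zero => intro h; exact absurd rfl h
  | one => 
    intro _
    refine ⟨?_, ?_⟩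
    · simp [HasFiniteMulSupport]
    · simp
  | prime_mul p a hp ih =>
    intro h
    have ha : a ≠ 0 := by rintro rfl; simp at h
    obtain ⟨h1, h2⟩ := ih ha
    have : Fact p.Prime := ⟨hp⟩
    have hf : (fun q : Nat.Primes => ((padicNorm (q : ℕ) ((p * a : ℕ) : ℚ) : ℚ) : ℝ)) =
        fun q : Nat.Primes => ((padicNorm (q : ℕ) (p : ℚ) : ℚ) : ℝ) *
          ((padicNorm (q : ℕ) (a : ℚ) : ℚ) : ℝ) := by
      funext q
      have : Fact (q : ℕ).Prime := ⟨q.2⟩
      rw [Nat.cast_mul, padicNorm.mul, Rat.cast_mul]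
    have h3 : ∀ q : Nat.Primes, q ≠ ⟨p, hp⟩ → ((padicNorm (q : ℕ) (p : ℚ) : ℚ) : ℝ) = 1 := by
      intro q hq
      have : Fact (q : ℕ).Prime := ⟨q.2⟩
      have : (q : ℕ) ≠ p := fun h => hq (Subtype.ext h)
      rw [padicNorm.padicNorm_of_prime_of_ne this]
      simp
    have h4 : HasFiniteMulSupport
        (fun q : Nat.Primes => ((padicNorm (q : ℕ) (p : ℚ) : ℚ) : ℝ)) := by
      refine (Set.finite_singleton (⟨p, hp⟩ : Nat.Primes)).subset ?_
      intro q hq
      by_contra hq2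
      exact hq (h3 q hq2)
    have h5 : ∏ᶠ q : Nat.Primes, ((padicNorm (q : ℕ) (p : ℚ) : ℚ) : ℝ) = (p : ℝ)⁻¹ := by
      refine (finprod_eq_single (fun q : Nat.Primes => ((padicNorm (q : ℕ) (p : ℚ) : ℚ) : ℝ))
        (⟨p, hp⟩ : Nat.Primes) h3).trans ?_
      show ((padicNorm p (p : ℚ) : ℚ) : ℝ) = _
      rw [padicNorm.padicNorm_p_of_prime]
      simp
    rw [hf]
    refine ⟨?_, ?_⟩
    · refine (h4.union h1).subset ?_
      exact mulSupport_mul _ _
    · rw [finprod_mul_distrib h4 h1, h5]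
      have hp0 : (p : ℝ) ≠ 0 := by exact_mod_cast hp.ne_zero
      push_cast
      field_simp
      exact h2

theorem prod_rat (D : ℚ) (hD : D ≠ 0) :
    HasFiniteMulSupport (fun q : Nat.Primes => ((padicNorm (q : ℕ) D : ℚ) : ℝ)) ∧
    (∏ᶠ q : Nat.Primes, ((padicNorm (q : ℕ) D : ℚ) : ℝ)) * |(D : ℝ)| = 1 := by
  obtain ⟨h1, h2⟩ := prod_nat D.num.natAbs (by simpa using hD)
  obtain ⟨h3, h4⟩ := prod_nat D.den D.den_nz
  have hf : (fun q : Nat.Primes => ((padicNorm (q : ℕ) D : ℚ) : ℝ)) =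
      fun q : Nat.Primes => ((padicNorm (q : ℕ) (D.num.natAbs : ℚ) : ℚ) : ℝ) *
        (((padicNorm (q : ℕ) (D.den : ℚ) : ℚ) : ℝ))⁻¹ := by
    funext q
    have : Fact (q : ℕ).Prime := ⟨q.2⟩
    have e1 : padicNorm (q : ℕ) D = padicNorm (q : ℕ) (D.num : ℚ) / padicNorm (q : ℕ) (D.den : ℚ) := by
      rw [← padicNorm.div, Rat.num_div_den]
    have e2 : padicNorm (q : ℕ) (D.num : ℚ) = padicNorm (q : ℕ) (D.num.natAbs : ℚ) := by
      rcases Int.natAbs_eq D.num with h | h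
      · conv_lhs => rw [h]
        simp
      · conv_lhs => rw [h]
        rw [Int.cast_neg, padicNorm.neg]
        simp
    rw [e1, e2]
    push_cast
    rfl
  have h3' : HasFiniteMulSupport
      (fun q : Nat.Primes => (((padicNorm (q : ℕ) (D.den : ℚ) : ℚ) : ℝ))⁻¹) := by
    refine h3.subset ?_
    intro q hq hq2
    apply hq
    show (((padicNorm (q : ℕ) (D.den : ℚ) : ℚ) : ℝ))⁻¹ = 1
    have : ((padicNorm (q : ℕ) (D.den : ℚ) : ℚ) : ℝ) = 1 := hq2
    rw [this, inv_one]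
  rw [hf]
  refine ⟨?_, ?_⟩
  · refine (h1.union h3').subset ?_
    exact mulSupport_mul _ _
  · rw [finprod_mul_distrib h1 h3', finprod_inv_distrib]
    have e3 : |(D : ℝ)| = (D.num.natAbs : ℝ) / (D.den : ℝ) := by
      have : (D : ℝ) = (D.num : ℝ) / (D.den : ℝ) := by exact_mod_cast (Rat.num_div_den D).symm
      rw [this, abs_div, Nat.abs_cast, Nat.cast_natAbs, Int.cast_abs]
    rw [e3]
    set A := ∏ᶠ q : Nat.Primes, ((padicNorm (q : ℕ) (D.num.natAbs : ℚ) : ℚ) : ℝ)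
    set B := ∏ᶠ q : Nat.Primes, ((padicNorm (q : ℕ) (D.den : ℚ) : ℚ) : ℝ)
    calc A * B⁻¹ * ((D.num.natAbs : ℝ) / (D.den : ℝ))
        = (A * (D.num.natAbs : ℝ)) * (B * (D.den : ℝ))⁻¹ := by rw [mul_inv, div_eq_mul_inv]; ring
      _ = 1 := by rw [h2, h4]; simp

section

variable {ι : Type} [Fintype ι] (E : ι → Type) [∀ k, Field (E k)] [∀ k, NumberField (E k)]
  {K : Type} [NormedField K] [CharZero K]

omit [Fintype ι] in
theorem pl_lin (x y : ∀ k, E k) (a b c d : ℚ) (i j : Emb E K) :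
    pl E (a • x + b • y) (c • x + d • y) i j = ((a * d - b * c : ℚ) : K) * pl E x y i j := by
  have h : ∀ (r : ℚ) (z : ∀ k, E k) (k : ι) (σ : E k →+* K),
      σ ((r • z) k) = (r : K) * σ (z k) := by
    intro r z k σ
    rw [Pi.smul_apply, Rat.smul_def, map_mul, map_ratCast]
  simp only [pl, Pi.add_apply, map_add, h]
  push_cast
  ring

theorem card_emb [IsAlgClosed K] : Fintype.card (Emb E K) = deg E := by
  rw [Fintype.card_sigma, deg]
  exact Finset.sum_congr rfl fun k _ => NumberField.Embeddings.card (E k) K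

theorem loc_lin (x y : ∀ k, E k) (a b c d : ℚ) :
    loc E K (a • x + b • y) (c • x + d • y) =
      ‖((a * d - b * c : ℚ) : K)‖ ^ (Fintype.card (Emb E K)) * loc E K x y := by
  unfold loc
  rw [Real.mul_iSup_of_nonneg (by positivity)]
  congr 1
  funext π
  rw [← Finset.card_univ, ← Finset.prod_const, ← Finset.prod_mul_distrib]
  refine Finset.prod_congr rfl fun i _ => ?_
  rw [pl_lin, norm_mul]

theorem loc_one (x y : ∀ k, E k) (h : ∀ i j : Emb E K, i ≠ j → ‖pl E x y i j‖ = 1)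
    (hc : 2 ≤ Fintype.card (Emb E K)) : loc E K x y = 1 := by
  classical
  obtain ⟨π, hπ⟩ := t_HALL (Emb E K) Eq eq_equivalence (by
    intro i
    have : Nat.card {j // i = j} = 1 := by
      rw [Nat.card_eq_fintype_card, Fintype.card_subtype_eq']
    omega)
  refine le_antisymm ?_ ?_
  · refine ciSup_le ?_
    intro τ
    by_cases hf : ∀ i, i ≠ τ i
    · rw [Finset.prod_eq_one fun i _ => h i (τ i) (hf i)]
    · push Not at hf
      obtain ⟨i, hi⟩ := hf
      rw [Finset.prod_eq_zero (Finset.mem_univ i)]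
      · exact zero_le_one
      · rw [← hi]
        simp [pl]
  · have h1 : ∏ i, ‖pl E x y i (π i)‖ = 1 :=
      Finset.prod_eq_one fun i _ => h i (π i) (hπ i)
    calc (1 : ℝ) = ∏ i, ‖pl E x y i (π i)‖ := h1.symm
      _ ≤ _ := le_ciSup (f := fun π : Equiv.Perm (Emb E K) => ∏ i, ‖pl E x y i (π i)‖)
        (Set.finite_range _).bddAbove π

end

/-- INV from TRANS. -/
theorem t_INV (hT : S_TRANS) : S_INV := by
  intro ι _ E _ _ x y hxy h3 a b c d hD
  obtain ⟨-, hT2⟩ := hT ι E x y hxy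
  refine ⟨?_, ?_⟩
  · intro i j hij
    rw [pl_lin]
    exact mul_ne_zero (by exact_mod_cast hD) (hxy i j hij)
  · obtain ⟨h1, h2⟩ := prod_rat _ hD
    have e1 : ∀ p : Nat.Primes, loc E (Kp p) (a • x + b • y) (c • x + d • y) =
        ((padicNorm (p : ℕ) (a * d - b * c) : ℚ) : ℝ) ^ deg E * loc E (Kp p) x y := by
      intro p
      rw [loc_lin, card_emb, norm_ratCast]
    have h5 : HasFiniteMulSupport (fun p : Nat.Primes => loc E (Kp p) x y) := by
      refine hT2.subset ?_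
      intro p hp
      by_contra hcon
      apply hp
      refine loc_one E x y ?_ ?_
      · intro i j hij
        by_contra h6
        exact hcon ⟨i, j, hij, h6⟩
      · rw [card_emb]; omega
    have h6 : HasFiniteMulSupport
        (fun p : Nat.Primes => ((padicNorm (p : ℕ) (a * d - b * c) : ℚ) : ℝ) ^ deg E) := by
      refine h1.subset ?_
      intro p hp hp2
      apply hp
      have : ((padicNorm (p : ℕ) (a * d - b * c) : ℚ) : ℝ) = 1 := hp2
      show ((padicNorm (p : ℕ) (a * d - b * c) : ℚ) : ℝ) ^ deg E = 1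
      rw [this, one_pow]
    unfold ht
    rw [finprod_congr e1, finprod_mul_distrib h6 h5, ← finprod_pow h1, loc_lin, card_emb]
    have e2 : ‖(((a * d - b * c : ℚ)) : ℂ)‖ = |((a * d - b * c : ℚ) : ℝ)| := by
      rw [← Complex.ofReal_ratCast, Complex.norm_real, Real.norm_eq_abs]
    rw [e2]
    set A := ∏ᶠ q : Nat.Primes, ((padicNorm (q : ℕ) (a * d - b * c) : ℚ) : ℝ)
    calc |((a * d - b * c : ℚ) : ℝ)| ^ deg E * loc E ℂ x y *
          (A ^ deg E * ∏ᶠ p : Nat.Primes, loc E (Kp p) x y)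
        = (A * |((a * d - b * c : ℚ) : ℝ)|) ^ deg E *
          (loc E ℂ x y * ∏ᶠ p : Nat.Primes, loc E (Kp p) x y) := by ring
      _ = _ := by rw [h2, one_pow, one_mul]

/-- CINV. -/
theorem t_CINV : S_CINV := by
  intro F _ _ x y a b c d hD
  have key : ∀ (p : Nat.Primes) (X Y : Kp p) (a b c d : ℤ),
      max ‖(a : Kp p) * X + b * Y‖ ‖(c : Kp p) * X + d * Y‖ ≤ max ‖X‖ ‖Y‖ := by
    intro p X Y a b c d
    have hi : ∀ m : ℤ, ‖(m : Kp p)‖ ≤ 1 := fun m =>
      IsUltrametricDist.norm_intCast_le_one (Kp p) m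
    have h1 : ∀ (m n : ℤ), ‖(m : Kp p) * X + n * Y‖ ≤ max ‖X‖ ‖Y‖ := by
      intro m n
      refine (IsUltrametricDist.norm_add_le_max _ _).trans ?_
      rw [norm_mul, norm_mul]
      refine max_le_max ?_ ?_
      · exact mul_le_of_le_one_left (norm_nonneg _) (hi m)
      · exact mul_le_of_le_one_left (norm_nonneg _) (hi n)
    exact max_le (h1 a b) (h1 c d)
  unfold cont
  refine finprod_congr fun p => Finset.prod_congr rfl fun σ _ => ?_
  simp only [map_add, map_mul, map_intCast]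
  refine le_antisymm (key p _ _ a b c d) ?_
  have h2 := key p ((a : Kp p) * σ x + b * σ y) ((c : Kp p) * σ x + d * σ y) d (-b) (-c) a
  have hD' : (a : Kp p) * d - b * c = 1 := by exact_mod_cast hD
  have e1 : ((d : ℤ) : Kp p) * ((a : Kp p) * σ x + b * σ y) +
      ((-b : ℤ) : Kp p) * ((c : Kp p) * σ x + d * σ y) = σ x := by
    push_cast
    linear_combination (σ x) * hD'
  have e2 : ((-c : ℤ) : Kp p) * ((a : Kp p) * σ x + b * σ y) +
      ((a : ℤ) : Kp p) * ((c : Kp p) * σ x + d * σ y) = σ y := by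
    push_cast
    linear_combination (σ y) * hD'
  rw [e1, e2] at h2
  exact h2

/-- ZERO. -/
theorem t_ZERO : S_ZERO := by
  intro F _ _ y h1 hy σ
  obtain ⟨r, hr⟩ : ∃ r : ℚ, algebraMap ℚ F r = y := by
    have h2 : (⊥ : Subalgebra ℚ F) = ⊤ := Subalgebra.bot_eq_top_of_finrank_eq_one h1
    have h3 : y ∈ (⊥ : Subalgebra ℚ F) := by rw [h2]; exact Algebra.mem_top
    exact Algebra.mem_bot.mp h3
  have hr0 : r ≠ 0 := by
    rintro rfl
    apply hy
    rw [← hr, map_zero]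
  obtain ⟨-, h4⟩ := prod_rat r hr0
  have e1 : ∀ p : Nat.Primes, ∏ τ : F →+* Kp p, max ‖τ 0‖ ‖τ y‖ =
      ((padicNorm (p : ℕ) r : ℚ) : ℝ) := by
    intro p
    have h5 : ∀ τ : F →+* Kp p, max ‖τ 0‖ ‖τ y‖ = ((padicNorm (p : ℕ) r : ℚ) : ℝ) := by
      intro τ
      have : τ y = (r : Kp p) := by
        rw [← hr, eq_ratCast, map_ratCast]
      rw [this, map_zero, norm_zero, max_eq_right (norm_nonneg _), norm_ratCast]
    rw [Finset.prod_congr rfl fun τ _ => h5 τ, Finset.prod_const, Finset.card_univ,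
      NumberField.Embeddings.card, h1, pow_one]
  have e2 : ‖σ y‖ = |(r : ℝ)| := by
    have : σ y = (r : ℂ) := by rw [← hr, eq_ratCast, map_ratCast]
    rw [this, ← Complex.ofReal_ratCast, Complex.norm_real, Real.norm_eq_abs]
  unfold cont
  rw [finprod_congr e1, e2, h4]

end Pool.Agent.K1H1.DP.Inv
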